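import Pool.Agent.Lib.MP_72b8ed_an.Sequences

/-!
# A non-diagonal complete Pick factor on `Ω_ϑ¹` (negative answer to Q1 of MP_72b8ed_an)

For every `g ≥ 1` the kernel `k = (1+σ)(4-σ)/(2(2-σ²))`, `σ = ⟨z,w⟩`, is a normalized diagonal
holomorphic kernel on a ball of radius `> 1`, is not a complete Pick kernel, and its master
certificate `ϑ = 3σ/(4-σ²)` has `Ω_ϑ¹` equal to the unit ball of `ℂ^g`.  On the unit ball
`k = (1-h)s` with a kernel `h` and a non-diagonal holomorphic complete Pick kernel `s`.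
-/

open scoped ComplexOrder Topology
open Filter Set
open Pool.Agent.Lib.MP_72b8ed_an

namespace Pool.Agent.Results.MP_72b8ed_an.Q1NonDiagonal

variable {g : ℕ}

/-- `σ(z,w) = ⟨z,w⟩`. -/
def sig (z w : Fin g → ℂ) : ℂ := ∑ j, z j * star (w j)

/-- `ρ(z) = |z|²`. -/
noncomputable def rho (z : Fin g → ℂ) : ℝ := ∑ j, ‖z j‖ ^ 2

theorem norm_sig_lt {z w : Fin g → ℂ} {r : ℝ} (hz : rho z < r) (hw : rho w < r) :
    ‖sig z w‖ < r := by
  have h1 : ‖sig z w‖ ≤ ∑ j, ‖z j‖ * ‖w j‖ := by
    refine (norm_sum_le _ _).trans (le_of_eq ?_)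
    refine Finset.sum_congr rfl fun j _ => ?_
    rw [norm_mul, norm_star]
  have h2 : ∑ j, ‖z j‖ * ‖w j‖ ≤ ∑ j, (‖z j‖ ^ 2 + ‖w j‖ ^ 2) / 2 := by
    refine Finset.sum_le_sum fun j _ => ?_
    nlinarith [sq_nonneg (‖z j‖ - ‖w j‖)]
  have h3 : ∑ j, (‖z j‖ ^ 2 + ‖w j‖ ^ 2) / 2 = (rho z + rho w) / 2 := by
    rw [← Finset.sum_div, Finset.sum_add_distrib]; rfl
  linarith

theorem norm_coord_lt {z : Fin g → ℂ} (hz : rho z < 1) (i : Fin g) : ‖z i‖ < 1 := by
  have h : ‖z i‖ ^ 2 ≤ rho z :=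
    Finset.single_le_sum (f := fun j => ‖z j‖ ^ 2) (fun j _ => by positivity) (Finset.mem_univ i)
  have := norm_nonneg (z i)
  nlinarith

/-- the function `u = z_i²/2`. -/
noncomputable def uu (i : Fin g) (z : Fin g → ℂ) : ℂ := z i ^ 2 / 2

/-- the multiplier `φ = (u + u²)/2`. -/
noncomputable def phi (i : Fin g) (z : Fin g → ℂ) : ℂ := (uu i z + uu i z ^ 2) / 2

/-- `η = φ(z) conj φ(w)`. -/
noncomputable def eta (i : Fin g) (z w : Fin g → ℂ) : ℂ := phi i z * star (phi i w)

theorem norm_phi_lt {z : Fin g → ℂ} (hz : rho z < 1) (i : Fin g) : ‖phi i z‖ < 1 := by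
  have h1 := norm_coord_lt hz i
  have h0 := norm_nonneg (z i)
  have h2 : ‖uu i z‖ ≤ 1 / 2 := by
    rw [uu, norm_div, norm_pow]
    norm_num
    nlinarith
  have h3 : ‖phi i z‖ ≤ (‖uu i z‖ + ‖uu i z‖ ^ 2) / 2 := by
    rw [phi, norm_div]
    norm_num
    refine div_le_div_of_nonneg_right ?_ (by norm_num)
    refine (norm_add_le _ _).trans ?_
    rw [norm_pow]
  have h4 := norm_nonneg (uu i z)
  nlinarith

theorem norm_eta_lt {z w : Fin g → ℂ} (hz : rho z < 1) (hw : rho w < 1) (i : Fin g) :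
    ‖eta i z w‖ < 1 := by
  rw [eta, norm_mul, norm_star]
  have h1 := norm_phi_lt hz i
  have h2 := norm_phi_lt hw i
  have h3 := norm_nonneg (phi i z)
  have h4 := norm_nonneg (phi i w)
  nlinarith

/-- The unit ball. -/
def ball : Set (Fin g → ℂ) := {z | rho z < 1}

/-- `k` -/
noncomputable def kk (z w : Fin g → ℂ) : ℂ :=
  (1 + sig z w) * (4 - sig z w) / (2 * (2 - sig z w ^ 2))

/-- `s` -/
noncomputable def ss (i : Fin g) (z w : Fin g → ℂ) : ℂ :=
  (4 - sig z w ^ 2) / ((1 - sig z w) * (4 + sig z w) * (1 - eta i z w))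

/-- `h` -/
noncomputable def hh (i : Fin g) (z w : Fin g → ℂ) : ℂ :=
  1 - (1 - sig z w ^ 2) * (16 - sig z w ^ 2) / (2 * (2 - sig z w ^ 2) * (4 - sig z w ^ 2)) *
    (1 - eta i z w)

theorem ne_of_norm_lt {x : ℂ} {r : ℝ} {c : ℂ} (h : ‖x‖ < r) (hc : r ≤ ‖c‖) : c - x ≠ 0 := by
  intro h0
  have : c = x := by linear_combination h0
  rw [this] at hc
  linarith

section ball

variable {z w : Fin g → ℂ} (hz : rho z < 1) (hw : rho w < 1)
include hz hw

theorem ne1 : (1 - sig z w) ≠ 0 := ne_of_norm_lt (norm_sig_lt hz hw) (by simp)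

theorem ne1' : (1 + sig z w) ≠ 0 := by
  have : ‖-sig z w‖ < 1 := by rw [norm_neg]; exact norm_sig_lt hz hw
  have := ne_of_norm_lt (c := 1) this (by simp)
  simpa using this

theorem ne4 : (4 - sig z w) ≠ 0 := ne_of_norm_lt (norm_sig_lt hz hw) (by norm_num)

theorem ne4' : (4 + sig z w) ≠ 0 := by
  have : ‖-sig z w‖ < 1 := by rw [norm_neg]; exact norm_sig_lt hz hw
  have := ne_of_norm_lt (c := 4) this (by norm_num)
  simpa using this

theorem norm_sig_sq_lt : ‖sig z w ^ 2‖ < 1 := by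
  rw [norm_pow]
  have := norm_sig_lt hz hw
  have h0 := norm_nonneg (sig z w)
  nlinarith

theorem ne2sq : (2 - sig z w ^ 2) ≠ 0 := ne_of_norm_lt (norm_sig_sq_lt hz hw) (by norm_num)

theorem ne4sq : (4 - sig z w ^ 2) ≠ 0 := ne_of_norm_lt (norm_sig_sq_lt hz hw) (by norm_num)

theorem ne16sq : (16 - sig z w ^ 2) ≠ 0 := ne_of_norm_lt (norm_sig_sq_lt hz hw) (by norm_num)

theorem neEta (i : Fin g) : (1 - eta i z w) ≠ 0 :=
  ne_of_norm_lt (norm_eta_lt hz hw i) (by simp)

theorem factorization (i : Fin g) : kk z w = (1 - hh i z w) * ss i z w := by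
  have h1 := ne1 hz hw
  have h1' := ne1' hz hw
  have h4 := ne4 hz hw
  have h4' := ne4' hz hw
  have h2 := ne2sq hz hw
  have h4s := ne4sq hz hw
  have he := neEta hz hw i
  unfold kk hh ss
  field_simp
  ring

theorem ss_ne_zero (i : Fin g) : ss i z w ≠ 0 := by
  unfold ss
  exact div_ne_zero (ne4sq hz hw) (mul_ne_zero (mul_ne_zero (ne1 hz hw) (ne4' hz hw))
    (neEta hz hw i))

end ball

/-! ### Kernels -/

theorem isKernelOn_sig (Ω : Set (Fin g → ℂ)) : IsKernelOn Ω sig :=
  (isKernelOn_inner Finset.univ).congr fun _ _ _ _ => rfl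

theorem isKernelOn_inv (c : ℂ) (hc : 0 < c) (r : ℝ) (hr : r ^ 2 ≤ ‖c‖) :
    IsKernelOn {z : Fin g → ℂ | rho z < r} (fun z w => (1 - sig z w ^ 2 / c)⁻¹) := by
  have h1 : IsKernelOn {z : Fin g → ℂ | rho z < r} (fun z w => c⁻¹ * sig z w ^ 2) :=
    ((isKernelOn_sig _).pow 2).const_mul (by
      rw [Complex.nonneg_iff]
      obtain ⟨h1, h2⟩ := Complex.pos_iff.1 hc
      constructor
      · rw [Complex.inv_re]; exact div_nonneg h1.le (Complex.normSq_nonneg _)
      · rw [Complex.inv_im, ← h2]; simp)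
  have h2 := h1.inv_one_sub (fun z hz w hw => by
    have h3 := norm_sig_lt hz hw
    have h0 := norm_nonneg (sig z w)
    have hc0 : 0 < ‖c‖ := norm_pos_iff.2 hc.ne'
    rw [norm_mul, norm_inv, norm_pow, inv_mul_lt_one₀ hc0]
    nlinarith)
  refine h2.congr fun z _ w _ => ?_
  rw [div_eq_inv_mul]

/-- `(1-X)/(1-σ²/4)` with `X = z_i² w̄_i² / 4`. -/
theorem isKernelOn_Q (i : Fin g) : IsKernelOn (ball : Set (Fin g → ℂ))
    (fun z w => (1 - uu i z * star (uu i w)) * (1 - sig z w ^ 2 / 4)⁻¹) := by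
  have hS : IsKernelOn (ball : Set (Fin g → ℂ)) (fun z w => (1 - sig z w ^ 2 / 4)⁻¹) :=
    isKernelOn_inv 4 (by norm_num) 1 (by norm_num)
  have hx : IsKernelOn (ball : Set (Fin g → ℂ)) (fun z w => z i * star (w i)) :=
    isKernelOn_rankOne fun z => z i
  have hs' : IsKernelOn (ball : Set (Fin g → ℂ))
      (fun z w => ∑ j ∈ Finset.univ.erase i, z j * star (w j)) := isKernelOn_inner _
  have h := isKernelOn_one.add ((((hs'.mul ((isKernelOn_sig _).add hx)).const_mul
    (c := 1 / 4) (by norm_num [Complex.nonneg_iff]))).mul hS)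
  refine h.congr fun z hz w hw => ?_
  have hne : (1 - sig z w ^ 2 / 4) ≠ 0 := by
    have := ne4sq hz hw
    intro h0
    apply this
    linear_combination 4 * h0
  have he : ∑ j ∈ Finset.univ.erase i, z j * star (w j) = sig z w - z i * star (w i) := by
    rw [sig, ← Finset.add_sum_erase _ _ (Finset.mem_univ i)]
    ring
  have h4s := ne4sq hz hw
  have e1 : (1 - sig z w ^ 2 / 4)⁻¹ = 4 * (4 - sig z w ^ 2)⁻¹ := by
    field_simp
  rw [he, e1]
  simp only [uu, star_div₀, star_pow]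
  field_simp
  have : star (2 : ℂ) = 2 := by simp
  rw [this]
  ring

/-- `(1-η)/(1-σ²/4)` is a kernel. -/
theorem isKernelOn_QE (i : Fin g) : IsKernelOn (ball : Set (Fin g → ℂ))
    (fun z w => (1 - eta i z w) * (1 - sig z w ^ 2 / 4)⁻¹) := by
  have hS : IsKernelOn (ball : Set (Fin g → ℂ)) (fun z w => (1 - sig z w ^ 2 / 4)⁻¹) :=
    isKernelOn_inv 4 (by norm_num) 1 (by norm_num)
  have hQ := isKernelOn_Q i
  have hX : IsKernelOn (ball : Set (Fin g → ℂ)) (fun z w => uu i z * star (uu i w)) :=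
    isKernelOn_rankOne fun z => uu i z
  have hU : IsKernelOn (ball : Set (Fin g → ℂ)) (fun z w => (1 - uu i z) * star (1 - uu i w)) :=
    isKernelOn_rankOne fun z => 1 - uu i z
  have h1 := hQ.const_mul (c := 1 / 2) (by norm_num [Complex.nonneg_iff])
  have h2 := (hQ.mul (isKernelOn_one.add hX)).const_mul (c := 1 / 2)
    (by norm_num [Complex.nonneg_iff])
  have h3 := ((hX.mul hU).mul hS).const_mul (c := 1 / 4) (by norm_num [Complex.nonneg_iff])
  refine ((h1.add h2).add h3).congr fun z hz w hw => ?_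
  simp only [eta, phi, star_div₀, star_add, star_sub, star_pow, star_one]
  have : star (2 : ℂ) = 2 := by simp
  rw [this]
  ring

theorem isKernelOn_eta (i : Fin g) : IsKernelOn (ball : Set (Fin g → ℂ)) (eta i) :=
  (isKernelOn_rankOne fun z => phi i z).congr fun _ _ _ _ => rfl

theorem isKernelOn_theta (i : Fin g) : IsKernelOn (ball : Set (Fin g → ℂ))
    (fun z w => 1 - 1 / ss i z w) := by
  have h := (isKernelOn_eta i).add (((isKernelOn_sig _).mul (isKernelOn_QE i)).const_mul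
    (c := 3 / 4) (by norm_num [Complex.nonneg_iff]))
  refine h.congr fun z hz w hw => ?_
  have h1 := ne1 hz hw
  have h4' := ne4' hz hw
  have h4s := ne4sq hz hw
  have he := neEta hz hw i
  have hne : (1 - sig z w ^ 2 / 4) ≠ 0 := by
    intro h0
    apply h4s
    linear_combination 4 * h0
  have e1 : (1 - sig z w ^ 2 / 4)⁻¹ = 4 * (4 - sig z w ^ 2)⁻¹ := by
    field_simp
  rw [e1]
  unfold ss
  rw [one_div_div]
  field_simp
  ring

theorem isKernelOn_hh (i : Fin g) : IsKernelOn (ball : Set (Fin g → ℂ)) (hh i) := by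
  have hS : IsKernelOn (ball : Set (Fin g → ℂ)) (fun z w => (1 - sig z w ^ 2 / 2)⁻¹) :=
    isKernelOn_inv 2 (by norm_num) 1 (by norm_num)
  have hy := (isKernelOn_sig (ball : Set (Fin g → ℂ))).pow 2
  have h5 : IsKernelOn (ball : Set (Fin g → ℂ)) (fun z w => 5 + sig z w ^ 2) :=
    (isKernelOn_const (by norm_num)).add hy
  have h := (isKernelOn_eta i).add ((((hy.mul h5).mul hS).mul (isKernelOn_QE i)).const_mul
    (c := 1 / 16) (by norm_num [Complex.nonneg_iff]))
  refine h.congr fun z hz w hw => ?_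
  have h4s := ne4sq hz hw
  have h2s := ne2sq hz hw
  have hne : (1 - sig z w ^ 2 / 4) ≠ 0 := by
    intro h0
    apply h4s
    linear_combination 4 * h0
  have hne2 : (1 - sig z w ^ 2 / 2) ≠ 0 := by
    intro h0
    apply h2s
    linear_combination 2 * h0
  have e1 : (1 - sig z w ^ 2 / 4)⁻¹ = 4 * (4 - sig z w ^ 2)⁻¹ := by
    field_simp
  have e2 : (1 - sig z w ^ 2 / 2)⁻¹ = 2 * (2 - sig z w ^ 2)⁻¹ := by
    field_simp
  rw [e1, e2]
  unfold hh
  field_simp
  ring

theorem isKernelOn_ss (i : Fin g) : IsKernelOn (ball : Set (Fin g → ℂ)) (ss i) := by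
  -- `s = (1/(1-σ)) * ((1 - η)^{-1}) * (4-σ²)/(4+σ)`; use `s = 1/(1-θ)` with `|θ| < 1`
  have hθ := isKernelOn_theta (g := g) i
  have hdiag : ∀ z ∈ (ball : Set (Fin g → ℂ)), ‖1 - 1 / ss i z z‖ < 1 := by
    intro z hz
    have hz' : rho z < 1 := hz
    have hρ0 : 0 ≤ rho z := Finset.sum_nonneg fun j _ => by positivity
    have hs : sig z z = (rho z : ℂ) := by
      unfold sig rho
      push_cast
      refine Finset.sum_congr rfl fun j _ => ?_
      rw [Complex.star_def, Complex.mul_conj, Complex.normSq_eq_norm_sq]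
      push_cast
      rfl
    have he : eta i z z = ((‖phi i z‖ ^ 2 : ℝ) : ℂ) := by
      unfold eta
      rw [Complex.star_def, Complex.mul_conj, Complex.normSq_eq_norm_sq]
    have hφ := norm_phi_lt hz' i
    have hφ0 := norm_nonneg (phi i z)
    have hval : 1 - 1 / ss i z z = ((1 - (1 - rho z) * (4 + rho z) * (1 - ‖phi i z‖ ^ 2) /
        (4 - rho z ^ 2) : ℝ) : ℂ) := by
      unfold ss
      rw [hs, he, one_div_div]
      push_cast
      rfl
    rw [hval, Complex.norm_real, Real.norm_eq_abs, abs_lt]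
    have h4 : 0 < 4 - rho z ^ 2 := by nlinarith
    have hpos : 0 < (1 - rho z) * (4 + rho z) * (1 - ‖phi i z‖ ^ 2) / (4 - rho z ^ 2) := by
      have h1 : 0 < 1 - rho z := by linarith
      have h2 : 0 < 1 - ‖phi i z‖ ^ 2 := by nlinarith
      positivity
    have hle : (1 - rho z) * (4 + rho z) * (1 - ‖phi i z‖ ^ 2) / (4 - rho z ^ 2) ≤ 1 := by
      rw [div_le_one h4]
      have h1 : 0 ≤ 1 - rho z := by linarith
      have h2 : 1 - ‖phi i z‖ ^ 2 ≤ 1 := by nlinarith
      have h3 : (1 - rho z) * (4 + rho z) * (1 - ‖phi i z‖ ^ 2) ≤ (1 - rho z) * (4 + rho z) * 1 :=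
        mul_le_mul_of_nonneg_left h2 (by positivity)
      nlinarith
    constructor <;> linarith
  have h := hθ.inv_one_sub (fun z hz w hw => ?_)
  · refine h.congr fun z hz w hw => ?_
    have := ss_ne_zero hz hw i
    simp
  · exact norm_lt_one_of_diag hθ hz hw (hdiag z hz) (hdiag w hw)

/-! ### The kernel `k` -/

theorem kk_denom {z w : Fin g → ℂ} {r : ℝ} (hr : r ^ 2 ≤ 2) (_ : 0 ≤ r) (hz : rho z < r)
    (hw : rho w < r) : (2 - sig z w ^ 2) ≠ 0 := by
  have h := norm_sig_lt hz hw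
  have h0 := norm_nonneg (sig z w)
  refine ne_of_norm_lt (r := 2) ?_ (by norm_num)
  rw [norm_pow]
  nlinarith

theorem isKernelOn_kk : IsKernelOn {z : Fin g → ℂ | rho z < 5 / 4} kk := by
  have hS : IsKernelOn {z : Fin g → ℂ | rho z < 5 / 4} (fun z w => (1 - sig z w ^ 2 / 2)⁻¹) :=
    isKernelOn_inv 2 (by norm_num) (5 / 4) (by norm_num)
  have h1 : IsKernelOn {z : Fin g → ℂ | rho z < 5 / 4} (fun z w => 1 / 2 + 3 / 4 * sig z w) :=
    (isKernelOn_const (c := 1 / 2) (by norm_num [Complex.nonneg_iff])).add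
      ((isKernelOn_sig _).const_mul (c := 3 / 4) (by norm_num [Complex.nonneg_iff]))
  have h := (isKernelOn_const (c := 1 / 2) (by norm_num [Complex.nonneg_iff])).add (h1.mul hS)
  refine h.congr fun z hz w hw => ?_
  have h2s : (2 - sig z w ^ 2) ≠ 0 := kk_denom (r := 5 / 4) (by norm_num) (by norm_num) hz hw
  have hne2 : (1 - sig z w ^ 2 / 2) ≠ 0 := by
    intro h0
    apply h2s
    linear_combination 2 * h0
  have e2 : (1 - sig z w ^ 2 / 2)⁻¹ = 2 * (2 - sig z w ^ 2)⁻¹ := by
    field_simp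
  rw [e2]
  unfold kk
  field_simp
  ring

theorem differentiable_sig_left (w : Fin g → ℂ) : Differentiable ℂ (fun z => sig z w) := by
  unfold sig
  fun_prop

theorem differentiable_sig_right (z : Fin g → ℂ) : Differentiable ℂ (fun w => star (sig z w)) := by
  unfold sig
  simp only [star_sum, star_mul', star_star]
  fun_prop

theorem isHolomorphicOn_kk : IsHolomorphicOn {z : Fin g → ℂ | rho z < 5 / 4} kk := by
  constructor
  · intro w hw
    have hσ := (differentiable_sig_left w).differentiableOn (s := {z : Fin g → ℂ | rho z < 5 / 4})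
    unfold kk
    simp only [div_eq_mul_inv]
    refine DifferentiableOn.mul ?_ (DifferentiableOn.inv ?_ fun z hz => ?_)
    · fun_prop
    · fun_prop
    exact mul_ne_zero two_ne_zero (kk_denom (r := 5 / 4) (by norm_num) (by norm_num) hz hw)
  · intro z hz
    have hσ := (differentiable_sig_right z).differentiableOn
      (s := {z : Fin g → ℂ | rho z < 5 / 4})
    have : (fun w => star (kk z w)) = fun w => (1 + star (sig z w)) * (4 - star (sig z w)) /
        (2 * (2 - star (sig z w) ^ 2)) := by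
      funext w
      unfold kk
      simp
    rw [this]
    simp only [div_eq_mul_inv]
    refine DifferentiableOn.mul ?_ (DifferentiableOn.inv ?_ fun w hw => ?_)
    · fun_prop
    · fun_prop
    refine mul_ne_zero two_ne_zero ?_
    have h := kk_denom (r := 5 / 4) (by norm_num) (by norm_num) hz hw
    intro h0
    apply h
    have := congrArg star h0
    simpa using this

theorem isHolomorphicOn_ss (i : Fin g) : IsHolomorphicOn (ball : Set (Fin g → ℂ)) (ss i) := by
  constructor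
  · intro w hw
    have hσ := (differentiable_sig_left w).differentiableOn (s := (ball : Set (Fin g → ℂ)))
    have hη : DifferentiableOn ℂ (fun z => eta i z w) (ball : Set (Fin g → ℂ)) := by
      unfold eta phi uu
      fun_prop
    unfold ss
    simp only [div_eq_mul_inv]
    refine DifferentiableOn.mul ?_ (DifferentiableOn.inv ?_ fun z hz => ?_)
    · fun_prop
    · fun_prop
    exact mul_ne_zero (mul_ne_zero (ne1 hz hw) (ne4' hz hw)) (neEta hz hw i)
  · intro z hz
    have hσ := (differentiable_sig_right z).differentiableOn (s := (ball : Set (Fin g → ℂ)))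
    have hη : DifferentiableOn ℂ (fun w => star (eta i z w)) (ball : Set (Fin g → ℂ)) := by
      unfold eta phi uu
      simp only [star_mul', star_star]
      fun_prop
    have : (fun w => star (ss i z w)) = fun w => (4 - star (sig z w) ^ 2) /
        ((1 - star (sig z w)) * (4 + star (sig z w)) * (1 - star (eta i z w))) := by
      funext w
      unfold ss
      simp
    rw [this]
    simp only [div_eq_mul_inv]
    refine DifferentiableOn.mul ?_ (DifferentiableOn.inv ?_ fun w hw => ?_)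
    · fun_prop
    · fun_prop
    have h : star ((1 - sig z w) * (4 + sig z w) * (1 - eta i z w)) ≠ 0 :=
      star_ne_zero.2 (mul_ne_zero (mul_ne_zero (ne1 hz hw) (ne4' hz hw)) (neEta hz hw i))
    simpa using h

/-- Taylor coefficients of `k`. -/
noncomputable def kc (a : Fin g →₀ ℕ) : ℝ := lift kSeq a

/-- The master certificate. -/
noncomputable def cert (a : Fin g →₀ ℕ) : ℝ := lift thetaSeq a

theorem kc_pos (a : Fin g →₀ ℕ) : 0 < kc a := mul_pos (kSeq_pos _) (multinomial_pos' a)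

theorem kc_zero : kc (0 : Fin g →₀ ℕ) = 1 := by rw [kc, lift_zero, kSeq_zero]

theorem kSeq_le_one (n : ℕ) : |kSeq n| ≤ 1 := by
  rw [abs_of_pos (kSeq_pos n)]
  unfold kSeq
  have h : (1 / 2 : ℝ) ^ (n / 2) ≤ 1 := pow_le_one₀ (by norm_num) (by norm_num)
  by_cases hn : n = 0
  · subst hn; norm_num
  · rw [if_neg hn]
    split_ifs <;> linarith

theorem expansion_kk : HasDiagonalExpansion (kk : (Fin g → ℂ) → (Fin g → ℂ) → ℂ)
    (fun a => (kc a : ℂ)) := by
  have hcont : Continuous (fun p : (Fin g → ℂ) × (Fin g → ℂ) =>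
      ∑ j, ‖p.1 j * star (p.2 j)‖) := by fun_prop
  have h0 : ∑ j, ‖((0 : (Fin g → ℂ) × (Fin g → ℂ)).1 j) *
      star ((0 : (Fin g → ℂ) × (Fin g → ℂ)).2 j)‖ < 1 := by simp
  have hev : ∀ᶠ p in 𝓝 ((0 : Fin g → ℂ), (0 : Fin g → ℂ)),
      ∑ j, ‖p.1 j * star (p.2 j)‖ < 1 :=
    hcont.continuousAt.eventually_lt continuousAt_const h0
  filter_upwards [hev] with p hp
  have hsum : Summable fun n => |kSeq n| * (∑ j, ‖p.1 j * star (p.2 j)‖) ^ n := by
    have hnn : 0 ≤ ∑ j, ‖p.1 j * star (p.2 j)‖ := Finset.sum_nonneg fun j _ => norm_nonneg _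
    refine Summable.of_nonneg_of_le (fun n => by positivity) (fun n => ?_)
      (summable_geometric_of_lt_one hnn hp)
    exact mul_le_of_le_one_left (by positivity) (kSeq_le_one n)
  have hσ : ‖sig p.1 p.2‖ ^ 2 < 2 := by
    have h1 : ‖sig p.1 p.2‖ ≤ ∑ j, ‖p.1 j * star (p.2 j)‖ := norm_sum_le _ _
    have h2 := norm_nonneg (sig p.1 p.2)
    nlinarith
  exact hasSum_lift kSeq (fun j => p.1 j * star (p.2 j)) hsum (hasSum_k _ hσ)

theorem isMasterCertificate_cert :
    IsMasterCertificate (kc : (Fin g →₀ ℕ) → ℝ) cert := by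
  refine isMasterCertificate_of kc cert (lift hSeq) kc_zero ?_ (lift_nonneg thetaSeq_nonneg)
    (lift_nonneg hSeq_nonneg) ?_ (fun j => kc_pos _) ?_
  · rw [cert, lift_zero, thetaSeq_zero]
  · intro b
    rcases disj b.degree with h | h
    · left; simp [cert, lift, h]
    · right; simp [lift, h]
  · intro b hb
    unfold cert kc
    rw [lift_conv]
    have hdeg : b.degree ≠ 0 := fun h => hb ((Finsupp.degree_eq_zero_iff b).1 h)
    simp only [lift]
    rw [conv_seq _ hdeg]
    ring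

theorem omegaOne_cert : OmegaOne (cert : (Fin g →₀ ℕ) → ℝ) = ball := by
  refine omegaOne_lift thetaSeq thetaSeq_zero thetaSeq_nonneg 1 one_pos
    (fun r => 3 * r / (4 - r ^ 2)) ?_ ?_ ?_
  · intro r hr0 hr1
    exact hasSum_theta r (by rw [abs_of_nonneg hr0]; linarith)
  · intro r hr0 hr1
    have : 0 < 4 - r ^ 2 := by nlinarith
    rw [div_lt_one this]
    nlinarith
  · intro ε hε
    refine ⟨max 0 (1 - ε / 3), le_max_left _ _, ?_, ?_⟩
    · rw [max_lt_iff]
      constructor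
      · norm_num
      · linarith
    · by_cases h3 : ε ≤ 3
      · rw [max_eq_right (by linarith)]
        have : 0 < 4 - (1 - ε / 3) ^ 2 := by nlinarith
        rw [lt_div_iff₀ this]
        nlinarith [mul_pos hε hε, mul_nonneg (mul_pos hε hε).le (sub_nonneg.2 h3)]
      · rw [max_eq_left (by linarith)]
        norm_num
        linarith

theorem not_isKernelOn_pick (hg : 1 ≤ g) : ¬ IsKernelOn (ball : Set (Fin g → ℂ))
    (fun z w => 1 - 1 / kk z w) := by
  intro hK
  let i : Fin g := ⟨0, hg⟩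
  let a : Fin g → ℂ := Pi.single i (1 / 2)
  let b : Fin g → ℂ := Pi.single i (-(1 / 2))
  have ha : rho a = 1 / 4 := by
    unfold rho
    rw [Finset.sum_eq_single i]
    · simp [a]; norm_num
    · intro j _ hj; simp [a, hj]
    · simp
  have hb : rho b = 1 / 4 := by
    unfold rho
    rw [Finset.sum_eq_single i]
    · simp [b]; norm_num
    · intro j _ hj; simp [b, hj]
    · simp
  have haa : sig a a = 1 / 4 := by
    unfold sig
    rw [Finset.sum_eq_single i]
    · simp [a]; norm_num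
    · intro j _ hj; simp [a, hj]
    · simp
  have hbb : sig b b = 1 / 4 := by
    unfold sig
    rw [Finset.sum_eq_single i]
    · simp [b]; norm_num
    · intro j _ hj; simp [b, hj]
    · simp
  have hab : sig a b = -(1 / 4) := by
    unfold sig
    rw [Finset.sum_eq_single i]
    · simp [a, b]; norm_num
    · intro j _ hj; simp [a, hj]
    · simp
  have h := hK.norm_sq_le (z := a) (w := b) (by change rho a < 1; rw [ha]; norm_num)
    (by change rho b < 1; rw [hb]; norm_num)
  simp only [kk, haa, hbb, hab] at h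
  norm_num at h

/-- `s` has no diagonal expansion at the origin. -/
theorem no_expansion (i : Fin g) (c : (Fin g →₀ ℕ) → ℂ) :
    ¬ HasDiagonalExpansion (ss i) c := by
  intro h
  -- rotate by `I`
  have h1 : Tendsto (fun t : ℝ => ((Pi.single i (t : ℂ) : Fin g → ℂ),
      (Pi.single i (t : ℂ) : Fin g → ℂ))) (𝓝 0) (𝓝 (0, 0)) := by
    have : Continuous (fun t : ℝ => ((Pi.single i (t : ℂ) : Fin g → ℂ),
      (Pi.single i (t : ℂ) : Fin g → ℂ))) := by
      refine Continuous.prodMk ?_ ?_ <;>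
      exact (continuous_single i).comp Complex.continuous_ofReal
    have h2 := this.tendsto 0
    simpa using h2
  have h2 : Tendsto (fun t : ℝ => ((Pi.single i (Complex.I * t) : Fin g → ℂ),
      (Pi.single i (Complex.I * t) : Fin g → ℂ))) (𝓝 0) (𝓝 (0, 0)) := by
    have : Continuous (fun t : ℝ => ((Pi.single i (Complex.I * t) : Fin g → ℂ),
      (Pi.single i (Complex.I * t) : Fin g → ℂ))) := by
      refine Continuous.prodMk ?_ ?_ <;>
      exact (continuous_single i).comp (continuous_const.mul Complex.continuous_ofReal)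
    have h2 := this.tendsto 0
    simpa using h2
  have hboth := (h1.eventually h).and (h2.eventually h)
  rw [Metric.eventually_nhds_iff] at hboth
  obtain ⟨ε, hε, hball⟩ := hboth
  set t : ℝ := min (ε / 2) (1 / 2) with ht
  have ht0 : 0 < t := by
    rw [ht]; exact lt_min (by linarith) (by norm_num)
  have ht1 : t ≤ 1 / 2 := min_le_right _ _
  have htε : t < ε := lt_of_le_of_lt (min_le_left _ _) (by linarith)
  obtain ⟨ha, hb⟩ := hball (y := t) (by rw [Real.dist_eq, sub_zero, abs_of_pos ht0]; exact htε)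
  have heq : (fun a : Fin g →₀ ℕ => c a * ∏ j,
        ((Pi.single i (Complex.I * t) : Fin g → ℂ) j *
          star ((Pi.single i (Complex.I * t) : Fin g → ℂ) j)) ^ a j) =
      (fun a : Fin g →₀ ℕ => c a * ∏ j,
        ((Pi.single i (t : ℂ) : Fin g → ℂ) j *
          star ((Pi.single i (t : ℂ) : Fin g → ℂ) j)) ^ a j) := by
    funext a
    congr 1
    refine Finset.prod_congr rfl fun j _ => ?_
    congr 1
    by_cases hj : j = i
    · subst hj
      simp only [Pi.single_eq_same, star_mul', Complex.star_def, Complex.conj_I,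
        Complex.conj_ofReal]
      linear_combination (-(t : ℂ) ^ 2) * Complex.I_mul_I
    · simp [hj]
  simp only at ha hb
  rw [heq] at hb
  have hval := ha.unique hb
  -- compute both values
  have hs1 : sig (Pi.single i (t : ℂ) : Fin g → ℂ) (Pi.single i (t : ℂ)) = (t : ℂ) ^ 2 := by
    unfold sig
    rw [Finset.sum_eq_single i]
    · simp [sq]
    · intro j _ hj; simp [hj]
    · simp
  have hs2 : sig (Pi.single i (Complex.I * t) : Fin g → ℂ) (Pi.single i (Complex.I * t)) =
      (t : ℂ) ^ 2 := by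
    unfold sig
    rw [Finset.sum_eq_single i]
    · simp only [Pi.single_eq_same, star_mul', Complex.star_def, Complex.conj_I,
        Complex.conj_ofReal]
      linear_combination (-(t : ℂ) ^ 2) * Complex.I_mul_I
    · intro j _ hj; simp [hj]
    · simp
  have he1 : eta i (Pi.single i (t : ℂ) : Fin g → ℂ) (Pi.single i (t : ℂ)) =
      (((t ^ 2 / 2 + (t ^ 2 / 2) ^ 2) / 2 : ℝ) : ℂ) ^ 2 := by
    unfold eta phi uu
    simp only [Pi.single_eq_same, star_div₀, star_add, star_pow, Complex.star_def,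
      Complex.conj_ofReal, map_ofNat]
    push_cast
    ring
  have he2 : eta i (Pi.single i (Complex.I * t) : Fin g → ℂ) (Pi.single i (Complex.I * t)) =
      (((-(t ^ 2 / 2) + (t ^ 2 / 2) ^ 2) / 2 : ℝ) : ℂ) ^ 2 := by
    unfold eta phi uu
    simp only [Pi.single_eq_same, star_div₀, star_add, star_pow, star_mul', Complex.star_def,
      Complex.conj_I, Complex.conj_ofReal, map_ofNat]
    have h3 : (Complex.I * (t : ℂ)) ^ 2 = -(t : ℂ) ^ 2 := by
      rw [mul_pow, Complex.I_sq]; ring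
    have h4 : (-Complex.I * (t : ℂ)) ^ 2 = -(t : ℂ) ^ 2 := by
      rw [mul_pow, neg_pow_two, Complex.I_sq]; ring
    rw [h3, h4]
    push_cast
    ring
  have ht2 : t ^ 2 ≤ 1 / 4 := by nlinarith
  have hρ : (1 : ℂ) - (t : ℂ) ^ 2 ≠ 0 := by
    have : ((1 - t ^ 2 : ℝ) : ℂ) ≠ 0 := by
      rw [Complex.ofReal_ne_zero]
      nlinarith
    push_cast at this
    exact this
  have h4 : (4 : ℂ) + (t : ℂ) ^ 2 ≠ 0 := by
    have : ((4 + t ^ 2 : ℝ) : ℂ) ≠ 0 := by
      rw [Complex.ofReal_ne_zero]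
      positivity
    push_cast at this
    exact this
  have h4' : (4 : ℂ) - ((t : ℂ) ^ 2) ^ 2 ≠ 0 := by
    have : ((4 - (t ^ 2) ^ 2 : ℝ) : ℂ) ≠ 0 := by
      rw [Complex.ofReal_ne_zero]
      nlinarith [sq_nonneg t]
    push_cast at this
    exact this
  unfold ss at hval
  rw [hs1, hs2, he1, he2] at hval
  set A : ℝ := (t ^ 2 / 2 + (t ^ 2 / 2) ^ 2) / 2 with hA
  set B : ℝ := (-(t ^ 2 / 2) + (t ^ 2 / 2) ^ 2) / 2 with hB
  have hA1 : (1 : ℂ) - (A : ℂ) ^ 2 ≠ 0 := by
    have : ((1 - A ^ 2 : ℝ) : ℂ) ≠ 0 := by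
      rw [Complex.ofReal_ne_zero]
      have : 0 ≤ A := by positivity
      have : A ≤ 1 / 2 := by rw [hA]; nlinarith [sq_nonneg t]
      nlinarith
    push_cast at this
    exact this
  have hB1 : (1 : ℂ) - (B : ℂ) ^ 2 ≠ 0 := by
    have : ((1 - B ^ 2 : ℝ) : ℂ) ≠ 0 := by
      rw [Complex.ofReal_ne_zero]
      have : -(1 / 2) ≤ B := by rw [hB]; nlinarith [sq_nonneg t, sq_nonneg (t ^ 2)]
      have : B ≤ 1 / 2 := by rw [hB]; nlinarith [sq_nonneg t]
      nlinarith
    push_cast at this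
    exact this
  rw [div_eq_div_iff (mul_ne_zero (mul_ne_zero hρ h4) hA1) (mul_ne_zero (mul_ne_zero hρ h4) hB1)]
    at hval
  have h5 : (4 - ((t : ℂ) ^ 2) ^ 2) * ((1 - (t : ℂ) ^ 2) * (4 + (t : ℂ) ^ 2)) *
      ((A : ℂ) ^ 2 - (B : ℂ) ^ 2) = 0 := by
    linear_combination hval
  have h6 : (A : ℂ) ^ 2 - (B : ℂ) ^ 2 = 0 := by
    rcases mul_eq_zero.1 h5 with h7 | h7
    · exact absurd h7 (mul_ne_zero h4' (mul_ne_zero hρ h4))
    · exact h7
  have h7 : A ^ 2 - B ^ 2 = 0 := by
    exact_mod_cast h6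
  have h8 : A ^ 2 - B ^ 2 = (t ^ 2 / 2) * (t ^ 2 / 2) ^ 2 := by
    rw [hA, hB]; ring
  rw [h8] at h7
  have : 0 < (t ^ 2 / 2) * (t ^ 2 / 2) ^ 2 := by positivity
  linarith

theorem isConnected_ball : IsConnected (ball : Set (Fin g → ℂ)) := by
  have h0 : (0 : Fin g → ℂ) ∈ (ball : Set (Fin g → ℂ)) := by
    change rho 0 < 1
    simp [rho]
  have hstar : StarConvex ℝ (0 : Fin g → ℂ) (ball : Set (Fin g → ℂ)) := by
    rw [starConvex_zero_iff]
    intro z hz a ha0 ha1
    change rho (a • z) < 1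
    have hz' : rho z < 1 := hz
    have : rho (a • z) = a ^ 2 * rho z := by
      unfold rho
      rw [Finset.mul_sum]
      refine Finset.sum_congr rfl fun j _ => ?_
      rw [Pi.smul_apply, norm_smul, mul_pow, Real.norm_eq_abs, sq_abs]
    rw [this]
    have h1 : a ^ 2 ≤ 1 := by nlinarith
    have h2 : 0 ≤ rho z := Finset.sum_nonneg fun j _ => by positivity
    nlinarith
  exact (hstar.isPathConnected h0).isConnected

/-- **Negative answer to Q1**, for every `g ≥ 1`, with a kernel `k` that is not itself a complete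
Pick kernel and that extends to a ball of radius `> 1` although `Ω_ϑ¹` is the unit ball. -/
theorem result (g : ℕ) (hg : 1 ≤ g) :
    ∃ (k h s : (Fin g → ℂ) → (Fin g → ℂ) → ℂ) (kc ϑ : (Fin g →₀ ℕ) → ℝ) (r : ℝ),
      1 < r ∧
      IsNormalizedDiagonalKernelOn {z : Fin g → ℂ | ∑ j, ‖z j‖ ^ 2 < r} k kc ∧
      IsMasterCertificate kc ϑ ∧
      OmegaOne ϑ = {z : Fin g → ℂ | ∑ j, ‖z j‖ ^ 2 < 1} ∧
      ¬ IsKernelOn (OmegaOne ϑ) (fun z w => 1 - 1 / k z w) ∧
      IsKernelOn (OmegaOne ϑ) h ∧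
      IsNormalizedCPOn (OmegaOne ϑ) s ∧
      IsHolomorphicOn (OmegaOne ϑ) s ∧
      (∀ z ∈ OmegaOne ϑ, ∀ w ∈ OmegaOne ϑ, k z w = (1 - h z w) * s z w) ∧
      ∀ c : (Fin g →₀ ℕ) → ℂ, ¬ HasDiagonalExpansion s c := by
  let i : Fin g := ⟨0, hg⟩
  have hball : OmegaOne (cert : (Fin g →₀ ℕ) → ℝ) = ball := omegaOne_cert
  refine ⟨kk, hh i, ss i, kc, cert, 5 / 4, by norm_num,
    ⟨isKernelOn_kk, isHolomorphicOn_kk, kc_zero, kc_pos, expansion_kk⟩,
    isMasterCertificate_cert, hball, ?_, ?_, ?_, ?_, ?_, no_expansion i⟩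
  · rw [hball]; exact not_isKernelOn_pick hg
  · rw [hball]; exact isKernelOn_hh i
  · rw [hball]
    refine ⟨isKernelOn_ss i, ?_, fun z hz w hw => ss_ne_zero hz hw i, isKernelOn_theta i⟩
    intro z _
    simp [ss, sig, eta, phi, uu]
  · rw [hball]; exact isHolomorphicOn_ss i
  · rw [hball]
    intro z hz w hw
    exact factorization hz hw i

end Pool.Agent.Results.MP_72b8ed_an.Q1NonDiagonal
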